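import Pool.Agent.helper53.PV.SpecD

/-!
# Row pvd:JTR (MP_376aaf_an): the trace `a ↦ cx (c 0 a)` on the crossed product
-/

set_option autoImplicit false

namespace Pool.Agent.PV

open Pool.Agent.CZ

theorem JTR (hJCX : JCX_stmt) (hJC0 : JC0_stmt) (hJTC : JTC_stmt) : JTR_stmt := by
  intro X _ _ α A _ ι u c hc φ
  obtain ⟨hadd, hsmul, hone, hpos, -, -, -⟩ := hJCX X α φ
  refine ⟨⟨⟨⟨fun a => φ.cx (c 0 a), fun a b => ?_⟩, fun z a => ?_⟩, fun a => ?_, ?_, fun a b => ?_⟩,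
    fun a => rfl⟩
  · rw [map_add, hadd]
  · change φ.cx (c 0 (z • a)) = z • φ.cx (c 0 a)
    rw [map_smul, hsmul, smul_eq_mul]
  · exact hpos _ fun x => hJC0 X α A ι u c hc a x
  · change φ.cx (c 0 1) = 1
    have h : c 0 (ι 1 * up u 0) = 1 := by rw [hc.cval, if_pos rfl]
    have h2 : ι 1 * up u 0 = 1 := by
      unfold up
      rw [map_one, zpow_zero, one_mul]
      rfl
    rw [h2] at h
    rw [h, hone]
  · exact hJTC X α A ι u c hc φ a b

end Pool.Agent.PV
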