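import Pool.Agent.helper53.PV.SpecD

/-!
# Row pvd:JUN (MP_376aaf_an): a tracial state is determined by its invariant state
-/

set_option autoImplicit false

namespace Pool.Agent.PV

open Pool.Agent.CZ

theorem JUN (hTV1 : TV1_stmt) (hPOS : POS_stmt) (hJCX : JCX_stmt) : JUN_stmt := by
  intro X _ _ _ _ α A _ ι u c hc hα t φ hφ a
  obtain ⟨hadd, hsmul, -, -, -, hnorm, -⟩ := hJCX X α φ
  obtain ⟨C, hC⟩ := hPOS A t
  have hzero : φ.cx 0 = 0 := by
    have h := hadd 0 0
    rw [add_zero] at h
    exact left_eq_add.mp h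
  -- the difference of the two sides, a linear map
  let D : A →ₗ[ℂ] ℂ := { toFun := fun a => t.τ a - φ.cx (c 0 a)
                         map_add' := fun a b => by rw [map_add, map_add, hadd]; ring
                         map_smul' := fun z a => by
                          rw [map_smul, map_smul, hsmul, RingHom.id_apply, smul_eq_mul, smul_eq_mul]; ring }
  have hD : ∀ a, D a = t.τ a - φ.cx (c 0 a) := fun a => rfl
  have hDn : ∀ a, ‖D a‖ ≤ (C + 2) * ‖a‖ := fun a => by
    rw [hD]
    have h1 := norm_sub_le (t.τ a) (φ.cx (c 0 a))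
    have h2 := hC a
    have h3 := hnorm (c 0 a)
    have h4 := hc.cnorm 0 a
    nlinarith
  let E : A →L[ℂ] ℂ := D.mkContinuous (C + 2) hDn
  have hE : ∀ a, E a = D a := fun a => rfl
  have hmon : ∀ x ∈ (Submodule.span ℂ {a : A | ∃ (f : C(X, ℂ)) (n : ℤ),
      a = ι f * ((u ^ n : unitary A) : A)} : Submodule ℂ A), E x = 0 := by
    intro x hx
    refine Submodule.span_induction ?_ ?_ ?_ ?_ hx
    · rintro x ⟨f, n, rfl⟩
      rw [hE, hD]
      change t.τ (ι f * up u n) - φ.cx (c 0 (ι f * up u n)) = 0
      rw [hc.cval]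
      by_cases hn : n = 0
      · subst hn
        rw [if_pos rfl, hφ]
        have h2 : ι f * up u 0 = ι f := by
          unfold up
          rw [zpow_zero]
          exact mul_one _
        rw [h2, sub_self]
      · rw [if_neg (Ne.symm hn), hzero, sub_zero]
        exact hTV1 X α A ι u c hc hα t n f hn
    · exact map_zero E
    · intro x y _ _ hx hy
      rw [map_add, hx, hy, add_zero]
    · intro z x _ hx
      rw [map_smul, hx, smul_zero]
  have hcl : E = 0 := by
    have h1 : (E : A → ℂ) = ((0 : A →L[ℂ] ℂ) : A → ℂ) := by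
      refine Continuous.ext_on hc.dense E.continuous (0 : A →L[ℂ] ℂ).continuous ?_
      intro x hx
      rw [hmon x hx]
      rfl
    exact DFunLike.coe_injective h1
  have h5 : E a = 0 := by rw [hcl]; rfl
  rw [hE, hD] at h5
  exact sub_eq_zero.mp h5

end Pool.Agent.PV
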