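import Pool.Agent.helper77.PV.SpecA

set_option autoImplicit false

open scoped Matrix Topology
open Filter

namespace Pool.Agent.PV

open Pool.Agent.CZ

theorem SXA_mi {A B : Type} [Ring A] [Ring B] {ι : Type} [Fintype ι] (φ : A →+* B)
    {e : Matrix ι ι A} (he : e * e = e) : e.map φ * e.map φ = e.map φ := by
  rw [← Matrix.map_mul, he]

theorem SXA_cg {A : Type} [Ring A] {ι : Type} [Fintype ι] {e f : Matrix ι ι A} (he : e * e = e)
    (hf : f * f = f) (h : e = f) : k0 e he = k0 f hf := by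
  subst h
  rfl

theorem SXA_conj (hK0E : K0E_stmt) {A : Type} [Ring A] {ι : Type} [Fintype ι] [DecidableEq ι]
    {E B : Matrix ι ι A} (hE : E * E = E) (hB : B * B = B) (W W' : Matrix ι ι A) (hW : W' * W = 1)
    (h : E = W * B * W') : k0 E hE = k0 B hB := by
  refine hK0E A ι ι E B hE hB (W * B) W' h.symm ?_
  rw [← Matrix.mul_assoc, hW, Matrix.one_mul]

theorem SXA_inj {C C' : Type} [NormedRing C] [NormedAlgebra ℂ C] [NormedRing C'] [NormedAlgebra ℂ C']
    (j : C →ₐ[ℂ] C') (h : ∀ x, ‖j x‖ = ‖x‖) : Function.Injective j := by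
  refine (injective_iff_map_eq_zero j).2 fun x hx => ?_
  rw [← norm_eq_zero, ← h x, hx, norm_zero]

/-- a matrix whose entries come from `C` -/
theorem SXA_lift {C C' D : Type} [NormedRing C] [NormedAlgebra ℂ C] [NormedRing C']
    [NormedAlgebra ℂ C'] [NormedRing D] [NormedAlgebra ℂ D] {j : C →ₐ[ℂ] C'} {e : C' →ₐ[ℂ] D}
    {r : D →ₐ[ℂ] C'} (h : Split j e r) {ι : Type} (M : Matrix ι ι C')
    (hM : ∀ i k, ∃ z : ℂ, e (M i k) = algebraMap ℂ D z) :
    ∃ M₀ : Matrix ι ι C, M₀.map j.toRingHom = M := by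
  have h1 : ∀ i k, ∃ x, j x = M i k := fun i k => h.ran _ (hM i k)
  choose f hf using h1
  refine ⟨Matrix.of f, ?_⟩
  ext i k
  exact hf i k

theorem SXA_mapinj {A B : Type} [Ring A] [Ring B] (φ : A →+* B) (h : Function.Injective φ)
    {ι κ : Type} {M N : Matrix ι κ A} (hMN : M.map φ = N.map φ) : M = N := by
  ext i k
  exact h (congrFun (congrFun hMN i) k)

/-- `[F] + [1 - F] = n [1]` -/
theorem SXA_compl (hK0E : K0E_stmt) (hK0B : K0B_stmt) {A : Type} [Ring A] {ι : Type} [Fintype ι]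
    [DecidableEq ι] {F : Matrix ι ι A} (hF : F * F = F) (hG : (1 - F) * (1 - F) = 1 - F) :
    k0 F hF + k0 (1 - F) hG = Fintype.card ι • unitCls A := by
  have h1 : F * (1 - F) = 0 := by rw [Matrix.mul_sub, Matrix.mul_one, hF, sub_self]
  have h2 : (1 - F) * F = 0 := by rw [Matrix.sub_mul, Matrix.one_mul, hF, sub_self]
  have hb : Matrix.fromBlocks F 0 0 (1 - F) * Matrix.fromBlocks F 0 0 (1 - F) =
      Matrix.fromBlocks F 0 0 (1 - F) := by
    rw [Matrix.fromBlocks_multiply]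
    simp only [Matrix.mul_zero, Matrix.zero_mul, add_zero, zero_add, hF, hG]
  rw [← hK0B.1 A ι ι F (1 - F) hF hG hb, ← hK0B.2.2 A ι (Matrix.one_mul 1)]
  symm
  refine hK0E A ι (ι ⊕ ι) 1 _ _ hb (Matrix.fromCols F (1 - F)) (Matrix.fromRows F (1 - F)) ?_ ?_
  · rw [Matrix.fromCols_mul_fromRows, hF, hG]
    exact add_sub_cancel F 1
  · rw [Matrix.fromRows_mul_fromCols, hF, hG, h1, h2]

theorem SXA (hK0E : K0E_stmt) (hK0B : K0B_stmt) (hK0G : K0G_stmt) (hFUN : FUN_stmt) : SXA_stmt := by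
  intro C C' D _ _ _ _ _ _ _ _ _ j e r χ hS z
  obtain ⟨n, m, E, hE, rfl⟩ := hK0G C' z
  have hji := SXA_inj j hS.iso
  set p : Matrix (Fin n) (Fin n) D := E.map e.toRingHom with hp
  have hpp : p * p = p := SXA_mi _ hE
  set F : Matrix (Fin n) (Fin n) C' := p.map r.toRingHom with hF
  have hFF : F * F = F := SXA_mi _ hpp
  have hFe : F.map e.toRingHom = p := by
    ext i k
    exact hS.er _
  have hG : (1 - F) * (1 - F) = 1 - F := by
    rw [Matrix.mul_sub, Matrix.sub_mul, Matrix.sub_mul, hFF]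
    simp
  have hFG : F * (1 - F) = 0 := by rw [Matrix.mul_sub, Matrix.mul_one, hFF, sub_self]
  have hGF : (1 - F) * F = 0 := by rw [Matrix.sub_mul, Matrix.one_mul, hFF, sub_self]
  set W : Matrix (Fin n ⊕ Fin n) (Fin n ⊕ Fin n) C' := Matrix.fromBlocks F (1 - F) (1 - F) F with hW
  have hWW : W * W = 1 := by
    rw [hW, Matrix.fromBlocks_multiply, hFF, hG, hFG, hGF, add_zero, add_comm (1 - F) F,
      add_sub_cancel, ← Matrix.fromBlocks_one]
  set B : Matrix (Fin n ⊕ Fin n) (Fin n ⊕ Fin n) C' := Matrix.fromBlocks E 0 0 (1 - F) with hB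
  have hBB : B * B = B := by
    rw [hB, Matrix.fromBlocks_multiply]
    simp only [Matrix.mul_zero, Matrix.zero_mul, add_zero, zero_add, hE, hG]
  have hE2 : (W * B * W) * (W * B * W) = W * B * W := by
    calc (W * B * W) * (W * B * W) = W * B * (W * W) * B * W := by simp only [Matrix.mul_assoc]
      _ = W * (B * B) * W := by rw [hWW, Matrix.mul_one, Matrix.mul_assoc W B B]
      _ = W * B * W := by rw [hBB]
  -- the image in `D`
  have hpq : (1 - p) * (1 - p) = 1 - p := by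
    rw [Matrix.mul_sub, Matrix.sub_mul, Matrix.sub_mul, hpp]
    simp
  have hp1 : p * (1 - p) = 0 := by rw [Matrix.mul_sub, Matrix.mul_one, hpp, sub_self]
  have hp2 : (1 - p) * p = 0 := by rw [Matrix.sub_mul, Matrix.one_mul, hpp, sub_self]
  have hone : (1 - F).map e.toRingHom = 1 - p := by
    have h1 := map_sub (e.toRingHom.mapMatrix) (1 : Matrix (Fin n) (Fin n) C') F
    rw [map_one] at h1
    change (1 - F).map e.toRingHom = 1 - F.map e.toRingHom at h1
    rw [h1, hFe]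
  have hz : (0 : Matrix (Fin n) (Fin n) C').map e.toRingHom = 0 :=
    Matrix.map_zero _ (map_zero e.toRingHom)
  have hWe : W.map e.toRingHom = Matrix.fromBlocks p (1 - p) (1 - p) p := by
    rw [hW, Matrix.fromBlocks_map, hone, hFe]
  have hBe : B.map e.toRingHom = Matrix.fromBlocks p 0 0 (1 - p) := by
    rw [hB, Matrix.fromBlocks_map, hone, hz]
  have hEe : (W * B * W).map e.toRingHom = Matrix.fromBlocks 1 0 0 0 := by
    rw [Matrix.map_mul, Matrix.map_mul, hWe, hBe, Matrix.fromBlocks_multiply,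
      Matrix.fromBlocks_multiply]
    simp only [Matrix.mul_zero, Matrix.zero_mul, add_zero, zero_add, hpp, hpq, hp1, hp2,
      add_sub_cancel]
  have hsc : ∀ i k, ∃ w : ℂ, e ((W * B * W) i k) = algebraMap ℂ D w := by
    intro i k
    have h1 : e ((W * B * W) i k) = (Matrix.fromBlocks 1 0 0 0 :
        Matrix (Fin n ⊕ Fin n) (Fin n ⊕ Fin n) D) i k := congrFun (congrFun hEe i) k
    rw [h1]
    rcases i with i | i <;> rcases k with k | k
    · by_cases hik : i = k
      · exact ⟨1, by simp [hik]⟩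
      · exact ⟨0, by simp [Matrix.one_apply_ne hik]⟩
    · exact ⟨0, by simp⟩
    · exact ⟨0, by simp⟩
    · exact ⟨0, by simp⟩
  obtain ⟨E₀, hE₀⟩ := SXA_lift hS (W * B * W) hsc
  have hE₀i : E₀ * E₀ = E₀ := by
    refine SXA_mapinj j.toRingHom hji ?_
    rw [Matrix.map_mul, hE₀, hE2]
  -- the classes
  have c1 : k0map j.toRingHom (k0 E₀ hE₀i) = k0 (W * B * W) hE2 := by
    rw [k0map_k0 j.toRingHom E₀ hE₀i (SXA_mi _ hE₀i)]
    exact SXA_cg _ _ hE₀
  have c2 : k0 (W * B * W) hE2 = k0 B hBB := SXA_conj hK0E hE2 hBB W W hWW rfl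
  have c3 : k0 B hBB = k0 E hE + k0 (1 - F) hG := hK0B.1 C' (Fin n) (Fin n) E (1 - F) hE hG hBB
  have c4 := SXA_compl hK0E hK0B hFF hG
  rw [Fintype.card_fin] at c4
  have c5 : k0map r.toRingHom (k0 p hpp) = k0 F hFF := by
    rw [k0map_k0 r.toRingHom p hpp (SXA_mi _ hpp)]
  have c6 : k0map j.toRingHom (unitCls C) = unitCls C' := hFUN.2.2.1 C C' j.toRingHom
  set y₀ : K0 D := k0 p hpp with hy₀
  set v : K0 ℂ := k0map χ.toRingHom y₀ with hv
  -- scalars
  have r1 : r.toRingHom.comp (algebraMap ℂ D) = algebraMap ℂ C' := by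
    ext w
    exact r.commutes w
  have r2 : j.toRingHom.comp (algebraMap ℂ C) = algebraMap ℂ C' := by
    ext w
    exact j.commutes w
  have r3 : χ.toRingHom.comp (algebraMap ℂ D) = RingHom.id ℂ := by
    ext w
    exact χ.commutes w
  have s1 : k0map r.toRingHom (k0map (algebraMap ℂ D) v) = k0map (algebraMap ℂ C') v := by
    rw [← hFUN.2.1, r1]
  have s2 : k0map j.toRingHom (k0map (algebraMap ℂ C) v) = k0map (algebraMap ℂ C') v := by
    rw [← hFUN.2.1, r2]
  have s3 : k0map χ.toRingHom (k0map (algebraMap ℂ D) v) = v := by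
    rw [← hFUN.2.1, r3]
    exact hFUN.1 ℂ v
  refine ⟨k0 E₀ hE₀i - (n + m) • unitCls C + k0map (algebraMap ℂ C) v,
    y₀ - k0map (algebraMap ℂ D) v, ?_, ?_⟩
  · rw [map_sub, s3, hv, sub_self]
  · rw [map_add, map_sub, map_sub, map_nsmul, c1, c2, c3, c5, c6, s1, s2, add_nsmul, ← c4]
    abel

end Pool.Agent.PV
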