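import Pool.Agent.helper77.PV.SpecA
import Pool.Agent.helper63.PV.SXA

set_option autoImplicit false

open scoped Matrix Topology
open Filter

namespace Pool.Agent.PV

open Pool.Agent.CZ

theorem SXB_idb {A : Type} [Ring A] {ι κ : Type} [Fintype ι] [Fintype κ] {e : Matrix ι ι A}
    {f : Matrix κ κ A} (he : e * e = e) (hf : f * f = f) :
    Matrix.fromBlocks e 0 0 f * Matrix.fromBlocks e 0 0 f = Matrix.fromBlocks e 0 0 f := by
  rw [Matrix.fromBlocks_multiply]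
  simp only [Matrix.mul_zero, Matrix.zero_mul, add_zero, zero_add, he, hf]

/-- `pad` and maps -/
theorem SXB_pad {A B : Type} [Ring A] [Ring B] (φ : A →+* B) {ι : Type} (e : Matrix ι ι A) (k l : ℕ) :
    (pad e k l).map φ = pad (e.map φ) k l := by
  unfold pad
  rw [Matrix.fromBlocks_map, Matrix.fromBlocks_map]
  have h1 : (1 : Matrix (Fin k) (Fin k) A).map φ = 1 := Matrix.map_one _ (map_zero φ) (map_one φ)
  rw [h1, Matrix.map_zero _ (map_zero φ), Matrix.map_zero _ (map_zero φ),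
    Matrix.map_zero _ (map_zero φ), Matrix.map_zero _ (map_zero φ), Matrix.map_zero _ (map_zero φ)]

/-- the idempotent `0 ⊕ 1_m` -/
def SXB_P (A : Type) [Ring A] (n m : ℕ) : Matrix (Fin n ⊕ Fin m) (Fin n ⊕ Fin m) A :=
  Matrix.fromBlocks 0 0 0 1

theorem SXB_Pmap {A B : Type} [Ring A] [Ring B] (φ : A →+* B) (n m : ℕ) :
    (SXB_P A n m).map φ = SXB_P B n m := by
  unfold SXB_P
  rw [Matrix.fromBlocks_map]
  have h1 : (1 : Matrix (Fin m) (Fin m) A).map φ = 1 := Matrix.map_one _ (map_zero φ) (map_one φ)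
  rw [h1, Matrix.map_zero _ (map_zero φ), Matrix.map_zero _ (map_zero φ),
    Matrix.map_zero _ (map_zero φ)]

theorem SXB_Pi (A : Type) [Ring A] (n m : ℕ) : SXB_P A n m * SXB_P A n m = SXB_P A n m :=
  SXB_idb (Matrix.mul_zero 0) (Matrix.one_mul 1)

theorem SXB_Pc (hK0B : K0B_stmt) (A : Type) [Ring A] (n m : ℕ) :
    k0 (SXB_P A n m) (SXB_Pi A n m) = m • unitCls A := by
  have h := hK0B.1 A (Fin n) (Fin m) 0 1 (Matrix.mul_zero 0) (Matrix.one_mul 1) (SXB_Pi A n m)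
  rw [hK0B.2.1, hK0B.2.2, zero_add, Fintype.card_fin] at h
  exact h

/-- the matrices `Q` with entries `0`, `1` -/
theorem SXB_sc {D : Type} [NormedRing D] [NormedAlgebra ℂ D] {ι : Type} (Q : Matrix ι ι ℂ)
    (M : Matrix ι ι D) (h : M = Q.map (algebraMap ℂ D)) (i k : ι) :
    ∃ z : ℂ, M i k = algebraMap ℂ D z := ⟨Q i k, by rw [h]; rfl⟩

theorem SXB_uinv {A B : Type} [Ring A] [Ring B] {ι : Type} [Fintype ι] [DecidableEq ι] (φ : A →+* B)
    (g : (Matrix ι ι A)ˣ) : umap φ g⁻¹ = (umap φ g)⁻¹ := by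
  unfold umap
  rw [map_inv]

theorem SXB (hK0G : K0G_stmt) (hK0C : K0C_stmt) (hK0D : K0D_stmt) (hK0E : K0E_stmt)
    (hK0B : K0B_stmt) (hKC : KC_stmt) (hFUN : FUN_stmt) : SXB_stmt := by
  intro C C' D _ _ _ _ _ _ _ _ _ j e r χ hS x y hy hxy
  have hji := SXA_inj j hS.iso
  set jR : C →+* C' := j.toRingHom with hjR
  set eR : C' →+* D := e.toRingHom with heR
  set rR : D →+* C' := r.toRingHom with hrR
  set χR : D →+* ℂ := χ.toRingHom with hχR
  have hjc : ∀ w : ℂ, jR (algebraMap ℂ C w) = algebraMap ℂ C' w := j.commutes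
  have hec : ∀ w : ℂ, eR (algebraMap ℂ C' w) = algebraMap ℂ D w := e.commutes
  have hrc : ∀ w : ℂ, rR (algebraMap ℂ D w) = algebraMap ℂ C' w := r.commutes
  have hχc : ∀ w : ℂ, χR (algebraMap ℂ D w) = w := χ.commutes
  have her : ∀ d, eR (rR d) = d := hS.er
  set s : C →+* ℂ := χR.comp (eR.comp jR) with hs
  have hes : ∀ c, eR (jR c) = algebraMap ℂ D (s c) := by
    intro c
    obtain ⟨z, hz⟩ := hS.sca c
    have hz' : eR (jR c) = algebraMap ℂ D z := hz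
    have h1 : s c = z := by
      change χR (eR (jR c)) = z
      rw [hz', hχc]
    rw [hz', h1]
  have hsc : ∀ w : ℂ, s (algebraMap ℂ C w) = w := by
    intro w
    change χR (eR (jR (algebraMap ℂ C w))) = w
    rw [hjc, hec, hχc]
  have q1 : eR.comp jR = (algebraMap ℂ D).comp s := by
    ext c
    exact hes c
  have q2 : eR.comp rR = RingHom.id D := by
    ext d
    exact her d
  have q3 : χR.comp (algebraMap ℂ D) = RingHom.id ℂ := by
    ext w
    exact hχc w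
  -- `y = 0`
  have h1 : k0map (algebraMap ℂ D) (k0map s x) + y = 0 := by
    have h2 := congrArg (k0map eR) hxy
    rw [map_add, map_zero, ← hFUN.2.1, ← hFUN.2.1, q1, q2, hFUN.1, hFUN.2.1] at h2
    exact h2
  have hsx : k0map s x = 0 := by
    have h2 := congrArg (k0map χR) h1
    rw [map_add, map_zero, ← hFUN.2.1, q3, hFUN.1, hy, add_zero] at h2
    exact h2
  have hy0 : y = 0 := by
    rw [hsx, map_zero, zero_add] at h1
    exact h1
  have hjx : k0map jR x = 0 := by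
    rw [hy0, map_zero, add_zero] at hxy
    exact hxy
  refine ⟨?_, hy0⟩
  -- first normal form
  obtain ⟨n, m, E, hE, rfl⟩ := hK0G C x
  set E₁ : Matrix (Fin n ⊕ Fin m) (Fin n ⊕ Fin m) C := Matrix.fromBlocks E 0 0 0 with hE₁
  have hE₁i : E₁ * E₁ = E₁ := SXB_idb hE (Matrix.mul_zero 0)
  have hcl : k0 E hE - m • unitCls C = k0 E₁ hE₁i - k0 (SXB_P C n m) (SXB_Pi C n m) := by
    rw [SXB_Pc hK0B]
    have h2 := hK0B.1 C (Fin n) (Fin m) E 0 hE (Matrix.mul_zero 0) hE₁i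
    rw [hK0B.2.1, add_zero] at h2
    rw [← h2]
  rw [hcl] at hsx hjx ⊢
  -- over `ℂ`
  have hs1 : k0 (E₁.map s) (SXA_mi s hE₁i) = k0 (SXB_P ℂ n m) (SXB_Pi ℂ n m) := by
    rw [map_sub, sub_eq_zero, k0map_k0 s E₁ hE₁i (SXA_mi s hE₁i),
      k0map_k0 s _ (SXB_Pi C n m) (SXA_mi s (SXB_Pi C n m))] at hsx
    rw [hsx]
    exact SXA_cg _ _ (SXB_Pmap s n m)
  obtain ⟨k, l, g₁, hg₁⟩ := hK0C ℂ (Fin n ⊕ Fin m) _ _ _ _ hs1
  obtain ⟨hpE, hpEc⟩ := hK0D C (Fin n ⊕ Fin m) E₁ hE₁i k l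
  obtain ⟨hpP, hpPc⟩ := hK0D C (Fin n ⊕ Fin m) (SXB_P C n m) (SXB_Pi C n m) k l
  set u : (Matrix ((Fin n ⊕ Fin m) ⊕ (Fin k ⊕ Fin l)) ((Fin n ⊕ Fin m) ⊕ (Fin k ⊕ Fin l)) C)ˣ :=
    umap (algebraMap ℂ C) g₁ with hu
  set E₂ : Matrix ((Fin n ⊕ Fin m) ⊕ (Fin k ⊕ Fin l)) ((Fin n ⊕ Fin m) ⊕ (Fin k ⊕ Fin l)) C :=
    u.val * pad E₁ k l * (u⁻¹).val with hE₂
  have hE₂i : E₂ * E₂ = E₂ := by
    calc E₂ * E₂ = u.val * pad E₁ k l * ((u⁻¹).val * u.val) * pad E₁ k l *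
          (u⁻¹).val := by rw [hE₂]; simp only [Matrix.mul_assoc]
      _ = u.val * (pad E₁ k l * pad E₁ k l) * (u⁻¹).val := by
          rw [Units.inv_mul, Matrix.mul_one, Matrix.mul_assoc u.val]
      _ = E₂ := by rw [hpE]
  have hE₂c : k0 E₂ hE₂i = k0 E₁ hE₁i + k • unitCls C := by
    rw [← hpEc]
    exact SXA_conj hK0E hE₂i hpE u.val (u⁻¹).val (Units.inv_mul u) rfl
  set P₂ : Matrix ((Fin n ⊕ Fin m) ⊕ (Fin k ⊕ Fin l)) ((Fin n ⊕ Fin m) ⊕ (Fin k ⊕ Fin l)) C :=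
    pad (SXB_P C n m) k l with hP₂
  -- the scalar matrix of `E₂`
  set Q : Matrix ((Fin n ⊕ Fin m) ⊕ (Fin k ⊕ Fin l)) ((Fin n ⊕ Fin m) ⊕ (Fin k ⊕ Fin l)) ℂ :=
    pad (SXB_P ℂ n m) k l with hQ
  have hus : u.val.map s = g₁.val := by
    ext a b
    exact hsc _
  have hus' : (u⁻¹).val.map s = (g₁⁻¹).val := by
    have h2 : u⁻¹ = umap (algebraMap ℂ C) g₁⁻¹ := by
      rw [hu, SXB_uinv]
    rw [h2]
    ext a b
    exact hsc _
  have hE₂s : E₂.map s = Q := by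
    rw [hE₂, Matrix.map_mul, Matrix.map_mul, hus, hus', SXB_pad, hg₁, Matrix.mul_assoc,
      Units.mul_inv, Matrix.mul_one]
  clear_value E₂
  -- over `C'`
  have hj1 : k0 (E₁.map jR) (SXA_mi jR hE₁i) = k0 (SXB_P C' n m) (SXB_Pi C' n m) := by
    rw [map_sub, sub_eq_zero, k0map_k0 jR E₁ hE₁i (SXA_mi jR hE₁i),
      k0map_k0 jR _ (SXB_Pi C n m) (SXA_mi jR (SXB_Pi C n m))] at hjx
    rw [hjx]
    exact SXA_cg _ _ (SXB_Pmap jR n m)
  have hP₂i : P₂ * P₂ = P₂ := hpP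
  have hj2 : k0 (E₂.map jR) (SXA_mi jR hE₂i) = k0 (P₂.map jR) (SXA_mi jR hP₂i) := by
    rw [← k0map_k0 jR E₂ hE₂i (SXA_mi jR hE₂i), ← k0map_k0 jR P₂ hP₂i (SXA_mi jR hP₂i), hE₂c,
      map_add, k0map_k0 jR E₁ hE₁i (SXA_mi jR hE₁i), hj1]
    have h2 : k0 P₂ hP₂i = k0 (SXB_P C n m) (SXB_Pi C n m) + k • unitCls C := hpPc
    rw [h2, map_add, k0map_k0 jR _ (SXB_Pi C n m) (SXA_mi jR (SXB_Pi C n m))]
    congr 1
    exact SXA_cg _ _ (SXB_Pmap jR n m).symm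
  obtain ⟨k', l', g, hg⟩ := hK0C C' _ _ _ _ _ hj2
  -- `h = e(g)`
  set h : (Matrix _ _ D)ˣ := umap eR g with hh
  set w : (Matrix _ _ C')ˣ := umap rR h with hw
  set QD := (pad (P₂.map jR) k' l').map eR with hQD
  have hPmap : (P₂.map jR) = Q.map (algebraMap ℂ C') := by
    rw [hP₂, hQ, SXB_pad, SXB_pad, SXB_Pmap, SXB_Pmap]
  have hEe : (pad (E₂.map jR) k' l').map eR = QD := by
    rw [hQD, SXB_pad, SXB_pad]
    congr 1
    ext a b
    change eR (jR (E₂ a b)) = eR ((P₂.map jR) a b)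
    rw [hes, hPmap]
    change _ = eR (algebraMap ℂ C' (Q a b))
    rw [hec, ← hE₂s]
    rfl
  have hcomD : h.val * QD = QD * h.val := by
    have h2 := congrArg (fun M : Matrix _ _ C' => M.map eR) hg
    rw [Matrix.map_mul, Matrix.map_mul, hEe] at h2
    exact h2
  have hrQ : QD.map rR = pad (P₂.map jR) k' l' := by
    rw [hQD, hPmap, SXB_pad, SXB_pad]
    congr 1
    ext a b
    change rR (eR (algebraMap ℂ C' (Q a b))) = algebraMap ℂ C' (Q a b)
    rw [hec, hrc]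
  have hcomC : w.val * pad (P₂.map jR) k' l' = pad (P₂.map jR) k' l' * w.val := by
    have h2 := congrArg (fun M : Matrix _ _ D => M.map rR) hcomD
    rw [Matrix.map_mul, Matrix.map_mul, hrQ] at h2
    exact h2
  have hcomC' : (w⁻¹).val * pad (P₂.map jR) k' l' =
      pad (P₂.map jR) k' l' * (w⁻¹).val := by
    calc (w⁻¹).val * pad (P₂.map jR) k' l'
        = (w⁻¹).val * (pad (P₂.map jR) k' l' * w.val) *
            (w⁻¹).val := by
          rw [← Matrix.mul_assoc, Matrix.mul_assoc _ w.val, Units.mul_inv,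
            Matrix.mul_one]
      _ = (w⁻¹).val * (w.val * pad (P₂.map jR) k' l') *
            (w⁻¹).val := by rw [hcomC]
      _ = _ := by rw [← Matrix.mul_assoc, Units.inv_mul, Matrix.one_mul]
  -- `e(w) = h`
  have hwe : w.val.map eR = h.val := by
    ext a b
    exact her _
  set g' := w⁻¹ * g with hg'
  have hge : umap eR g' = 1 := by
    rw [hg']
    have h2 : umap eR (w⁻¹ * g) = (umap eR w)⁻¹ * umap eR g := by
      unfold umap
      rw [map_mul, map_inv]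
    have h3 : umap eR w = h := Units.ext hwe
    rw [h2, h3, ← hh, inv_mul_cancel]
  have hgs : ∀ a b, ∃ z : ℂ, e (g'.val a b) = algebraMap ℂ D z := by
    intro a b
    have h2 : g'.val.map eR = 1 := congrArg Units.val hge
    refine SXB_sc (1 : Matrix _ _ ℂ) (g'.val.map eR) ?_ a b
    rw [Matrix.map_one _ (map_zero _) (map_one _)]
    exact h2
  have hgs' : ∀ a b, ∃ z : ℂ, e ((g'⁻¹).val a b) = algebraMap ℂ D z := by
    intro a b
    have h1 : umap eR g'⁻¹ = 1 := by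
      rw [SXB_uinv, hge, inv_one]
    have h2 : (g'⁻¹).val.map eR = 1 := congrArg Units.val h1
    refine SXB_sc (1 : Matrix _ _ ℂ) ((g'⁻¹).val.map eR) ?_ a b
    rw [Matrix.map_one _ (map_zero _) (map_one _)]
    exact h2
  obtain ⟨a₀, ha₀⟩ := SXA_lift hS g'.val hgs
  obtain ⟨b₀, hb₀⟩ := SXA_lift hS (g'⁻¹).val hgs'
  have hab : a₀ * b₀ = 1 := by
    refine SXA_mapinj jR hji ?_
    rw [Matrix.map_mul, ha₀, hb₀, Units.mul_inv, Matrix.map_one _ (map_zero _) (map_one _)]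
  have hba : b₀ * a₀ = 1 := by
    refine SXA_mapinj jR hji ?_
    rw [Matrix.map_mul, ha₀, hb₀, Units.inv_mul, Matrix.map_one _ (map_zero _) (map_one _)]
  have hgg : g'.val * pad (E₂.map jR) k' l' = pad (P₂.map jR) k' l' * g'.val := by
    rw [hg', Units.val_mul, Matrix.mul_assoc, hg, ← Matrix.mul_assoc, hcomC', Matrix.mul_assoc]
  have hfin : a₀ * pad E₂ k' l' = pad P₂ k' l' * a₀ := by
    refine SXA_mapinj jR hji ?_
    rw [Matrix.map_mul, Matrix.map_mul, ha₀, SXB_pad, SXB_pad]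
    exact hgg
  obtain ⟨hpE2, hpE2c⟩ := hK0D C _ E₂ hE₂i k' l'
  obtain ⟨hpP2, hpP2c⟩ := hK0D C _ P₂ hP₂i k' l'
  have hcc : k0 (pad P₂ k' l') hpP2 = k0 (pad E₂ k' l') hpE2 := by
    refine SXA_conj hK0E hpP2 hpE2 a₀ b₀ hba ?_
    rw [hfin, Matrix.mul_assoc, hab, Matrix.mul_one]
  rw [hpE2c, hpP2c, add_left_inj] at hcc
  have h2 : k0 P₂ hP₂i = k0 (SXB_P C n m) (SXB_Pi C n m) + k • unitCls C := hpPc
  rw [h2, hE₂c, add_left_inj] at hcc
  rw [hcc, sub_self]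

end Pool.Agent.PV
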